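import Pool.Agent.H447.TR.Ded

/-!
# Deducibility in Post's tag system and components without cycles

The question asks whether it is decidable if a word `B` is deducible from a word `A` in Post's tag system with
the productions `00` and `1101`. The words fall into components (of words whose computations meet). We show:

1. Deducibility is decidable if the number of the components which have an element with code at most
   `N` and contain no cycle can be found, for all `N` in some infinite decidable set, by an algorithm with
   random seeds, which need not halt and has to be right for a fraction `1 / q` of the seeds only (for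
   instance if this number is computable up to a bounded error).
2. If deducibility is undecidable, there are infinitely many components without cycles.

From the number of the components one gets a time after which all meetings of two computations and all cycles
have been seen; in a component without cycle the position of a word relative to the leader is determined by any
meeting, so the number of steps from `A` to `B` is bounded.
-/

set_option autoImplicit false

namespace Pool.Agent.Results.MP_41f897_lc.ComponentsWithoutCycles

/-- delete three letters, append `1101` or `00` -/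
def step (x : List Bool) : List Bool :=
  x.drop 3 ++ (if x.head? = some true then [true, true, false, true] else [false, false])

/-- `B` is deducible from `A` (this is the relation of the frozen statement, which admits no steps) -/
def Ded (A B : List Bool) : Prop :=
  Relation.ReflTransGen (fun x y : List Bool => 3 ≤ x.length ∧ y = step x) A B

/-- The question (this is the frozen statement). -/
def Q1 : Prop := ComputablePred fun p : List Bool × List Bool => Ded p.1 p.2

/-- one step of the computation, which stops at words of length less than `3` -/
def next (w : List Bool) : List Bool := bif decide (w.length < 3) then w else step w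

/-- the computations on `u` and `w` meet, that is, `u` and `w` are in the same component -/
def Meet (u w : List Bool) : Prop := ∃ i j, next^[i] u = next^[j] w

/-- the computation on `w` is eventually periodic (for instance it stops) -/
def Periodic (w : List Bool) : Prop := ∃ i j, j < i ∧ next^[i] w = next^[j] w

/-- `w` has the smallest code in its component, which contains no cycle -/
def Leader (w : List Bool) : Prop :=
  ¬ Periodic w ∧ ∀ u, Encodable.encode u < Encodable.encode w → ¬ Meet u w

/-- the number of the leaders with code at most `N` -/
noncomputable def leaders (N : ℕ) : ℕ := {w | Encodable.encode w ≤ N ∧ Leader w}.ncard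

/-- a fraction of at least `1 / q` of the seeds `b < M` satisfies `p` -/
def Often (q M : ℕ) (p : ℕ → Prop) : Prop := 0 < M ∧ M ≤ q * {b | b < M ∧ p b}.ncard

/-- `r` is an infinite decidable set -/
def Stages (r : ℕ → Bool) : Prop := Computable r ∧ ∀ k, ∃ N ≥ k, r N = true

/-- the appended word -/
def P : Option Bool → List Bool
  | some true => [true, true, false, true]
  | _ => [false, false]

lemma step_eq (w : List Bool) : step w = w.drop 3 ++ P w.head? := by
  cases w with
  | nil => rfl
  | cons x t => cases x <;> rfl

lemma step_comp : Computable step := by
  have h1 : Primrec fun w : List Bool => w.tail.tail.tail ++ P w.head? :=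
    Primrec.list_append.comp (Primrec.list_tail.comp (Primrec.list_tail.comp Primrec.list_tail))
      ((Primrec.dom_finite P).comp Primrec.list_head?)
  refine (h1.to_comp).of_eq fun w => ?_
  rw [step_eq]
  rcases w with _ | ⟨x, _ | ⟨y, _ | ⟨z, t⟩⟩⟩ <;> rfl

lemma next_comp : Computable next :=
  Computable.cond (Pool.Agent.H447.TR.lt_dec_comp Primrec.list_length.to_comp (Computable.const 3))
    Computable.id step_comp

lemma ded_iff (A B : List Bool) : Ded A B ↔ ∃ k, next^[k] A = B := by
  constructor
  · intro h
    induction h with
    | refl => exact ⟨0, rfl⟩
    | tail _ h2 ih =>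
      obtain ⟨k, hk⟩ := ih
      refine ⟨k + 1, ?_⟩
      rw [Function.iterate_succ_apply', hk]
      unfold next
      rw [decide_eq_false (by have := h2.1; omega), h2.2]
      rfl
  · rintro ⟨k, rfl⟩
    induction k with
    | zero => exact Relation.ReflTransGen.refl
    | succ k ih =>
      rw [Function.iterate_succ_apply']
      by_cases h : (next^[k] A).length < 3
      · have h1 : next (next^[k] A) = next^[k] A := by
          rw [next, decide_eq_true h]
          rfl
        rw [h1]
        exact ih
      · refine ih.tail ⟨by omega, ?_⟩
        rw [next, decide_eq_false h]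
        rfl

open Pool.Agent.H447.TR in
lemma advice (q : ℕ) (M : ℕ → ℕ) (F : ℕ × ℕ →. ℕ) (r : ℕ → Bool) (hM : Computable M)
    (hF : Partrec F) (hr : Stages r)
    (h : ∀ N, r N = true → Often q (M N) fun b => leaders N ∈ F (N, b)) : Q1 := by
  obtain ⟨f, hfd⟩ : ∃ f : ℕ → ℕ, f = cod (fun w : List Bool => Encodable.encode (next w)) id :=
    ⟨_, rfl⟩
  have hf : Computable f := by
    rw [hfd]
    exact cod_comp (Computable.encode.comp next_comp) Computable.id
  have hno : (fun x : ℕ × ℕ => cod (fun v : List Bool => (fun _ : List Bool × ℕ => false) (v, x.2))
      (fun _ => false) x.1) = no := by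
    funext x
    unfold cod no
    cases Encodable.decode (α := List Bool) x.1 with
    | none => rfl
    | some w =>
      simp
  have hl : ∀ N, leaders N = {n | n ≤ N ∧ n ∈ Ld f no}.ncard := by
    intro N
    have h1 := leaders_cod next (B := fun _ => False) (β := fun _ : List Bool × ℕ => false)
      (fun v => ⟨fun h => h.elim, fun ⟨_, h⟩ => absurd h Bool.false_ne_true⟩) N
    rw [hno, ← hfd] at h1
    rw [h1]
    unfold leaders leadersG
    refine congrArg Set.ncard ?_
    ext w
    constructor
    · rintro ⟨h1, h2, h3⟩
      exact ⟨h1, h2, fun _ h => h.elim, h3⟩
    · rintro ⟨h1, h2, _, h3⟩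
      exact ⟨h1, h2, h3⟩
  obtain ⟨C, hC, hC2⟩ := core_ded hf q hM hF hr.1 hr.2 fun N hN => by
    have h1 := h N hN
    rw [hl] at h1
    exact h1
  have key : ∀ A B : List Bool, Ded A B ↔
      ∃ k < C (max (Encodable.encode A) (Encodable.encode B)) + 1,
        f^[k] (Encodable.encode A) = Encodable.encode B := by
    intro A B
    rw [ded_iff]
    constructor
    · rintro ⟨k, hk⟩
      rcases Nat.eq_zero_or_pos k with h0 | h0
      · subst h0
        refine ⟨0, Nat.succ_pos _, ?_⟩
        have : A = B := hk
        rw [this]
        rfl
      · obtain ⟨k', h1, _, h3⟩ := hC2 (max (Encodable.encode A) (Encodable.encode B)) _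
          (le_max_left _ _) _ (le_max_right _ _) ⟨k, h0, by rw [hfd, cod_iter, hk]⟩
        exact ⟨k', Nat.lt_succ_of_le h1, h3⟩
    · rintro ⟨k, _, hk⟩
      rw [hfd, cod_iter] at hk
      exact ⟨k, Encodable.encode_injective hk⟩
  have e1 : Computable fun p : List Bool × List Bool => Encodable.encode p.1 :=
    Computable.encode.comp Computable.fst
  have e2 : Computable fun p : List Bool × List Bool => Encodable.encode p.2 :=
    Computable.encode.comp Computable.snd
  have e3 : Computable fun p : List Bool × List Bool =>
      C (max (Encodable.encode p.1) (Encodable.encode p.2)) + 1 :=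
    Computable.succ.comp (hC.comp (Primrec.nat_max.to_comp.comp e1 e2))
  have e4 : Computable fun y : (List Bool × List Bool) × ℕ =>
      decide (f^[y.2] (Encodable.encode y.1.1) = Encodable.encode y.1.2) :=
    eq_dec_comp (Computable.comp (f := fun x : ℕ × ℕ => f^[x.1] x.2)
      (g := fun y : (List Bool × List Bool) × ℕ => (y.2, Encodable.encode y.1.1)) (iter_comp hf)
      (Computable.snd.pair (e1.comp Computable.fst))) (e2.comp Computable.fst)
  have e5 : Computable fun p : List Bool × List Bool => Pool.Agent.Q324.SC.cnt
      (fun k => decide (f^[k] (Encodable.encode p.1) = Encodable.encode p.2))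
      (C (max (Encodable.encode p.1) (Encodable.encode p.2)) + 1) :=
    Pool.Agent.Q324.SC.cnt_comp (f := fun (p : List Bool × List Bool) k =>
      decide (f^[k] (Encodable.encode p.1) = Encodable.encode p.2))
      (m := fun p => C (max (Encodable.encode p.1) (Encodable.encode p.2)) + 1) e4 e3
  refine ComputablePred.computable_iff.2 ⟨_, lt_dec_comp (Computable.const 0) e5, ?_⟩
  funext p
  rw [eq_iff_iff, key, decide_eq_true_eq, Pool.Agent.Q324.SC.cnt_eq, Finset.card_pos]
  constructor
  · rintro ⟨k, h1, h2⟩
    exact ⟨k, by rw [Finset.mem_filter, Finset.mem_range, decide_eq_true_eq]; exact ⟨h1, h2⟩⟩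
  · rintro ⟨k, hk⟩
    rw [Finset.mem_filter, Finset.mem_range, decide_eq_true_eq] at hk
    exact ⟨k, hk.1, hk.2⟩

/-- **Deducibility and components without cycles.** -/
theorem result :
    ((∃ (q : ℕ) (M : ℕ → ℕ) (F : ℕ × ℕ →. ℕ) (r : ℕ → Bool),
      Computable M ∧ Partrec F ∧ Stages r ∧
        ∀ N, r N = true → Often q (M N) fun b => leaders N ∈ F (N, b)) → Q1) ∧
    (¬ Q1 → {w | Leader w}.Infinite) := by
  refine ⟨?_, ?_⟩
  · rintro ⟨q, M, F, r, hM, hF, hr, h⟩
    exact advice q M F r hM hF hr h
  · intro hQ
    by_contra hfin
    rw [Set.not_infinite] at hfin
    refine hQ (advice 1 (fun _ => 1) (fun _ => Part.some {w | Leader w}.ncard)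
      (fun N => decide (hfin.toFinset.sup Encodable.encode ≤ N)) (Computable.const 1)
      (Computable.const _).partrec ⟨Pool.Agent.H447.TR.le_dec_comp (Computable.const _)
        Computable.id, fun k => ⟨max k (hfin.toFinset.sup Encodable.encode), le_max_left _ _,
          decide_eq_true (le_max_right _ _)⟩⟩ fun N hN =>
        Pool.Agent.H447.TR.oftenG_one _ ?_)
    have h1 : leaders N = {w | Leader w}.ncard := by
      unfold leaders
      refine congrArg Set.ncard ?_
      ext n
      constructor
      · rintro ⟨_, h⟩
        exact h
      · intro h
        refine ⟨?_, h⟩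
        have h2 : Encodable.encode n ≤ hfin.toFinset.sup Encodable.encode :=
          Finset.le_sup (hfin.mem_toFinset.2 h)
        exact h2.trans (of_decide_eq_true hN)
    rw [h1]
    exact Part.mem_some _

end Pool.Agent.Results.MP_41f897_lc.ComponentsWithoutCycles
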